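import Pool.Agent.X264.TG.Main

/-!
# Torsion growth: products with surfaces, large dimensions suffice
-/

set_option autoImplicit false

open Pool.Agent.X264.TG

namespace Pool.Agent.Results.MP_98dedd_gt.ProductsWithSurfaces

universe u

/-- **Products with surfaces.** Let `M` be a closed aspherical manifold of dimension `2 k + 1` with
vanishing `L²`-Betti numbers, with a chain `c = (Γ_n)`, and `F` a closed oriented hyperbolic surface with
a chain `d = (Λ_n)`. The limit formula of Q1 holds for `M × F` and the chain `(Γ_n × Λ_n)` if and only if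
it holds for `M` and `(Γ_n)`. Hence Q1 in all dimensions `≥ 2 N + 1` implies Q1 in all dimensions. -/
theorem result (T : Theory.{u}) (hT : T.IsKnown) :
    (∀ M F c d, T.Holds (T.prod M F) (T.pchain M F c d) ↔ T.Holds M c) ∧
      ∀ N, (∀ M c, T.Holds M c) ↔ ∀ M c, N ≤ T.k M → T.Holds M c :=
  ⟨fun M F c d => Theory.holds_prod hT M F c d, fun N => Theory.large hT N⟩

end Pool.Agent.Results.MP_98dedd_gt.ProductsWithSurfaces
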